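import Pool.Agent.Lib.MP_961271_an.UpperTeeth

/-!
The limit of the normalised minimal errors need not exist.
-/

open MeasureTheory Set Filter Topology
open scoped ENNReal NNReal

namespace Pool.Agent.Results.MP_961271_an.NoLimit

open Pool.Agent.Lib.MP_961271_an

theorem expo_half : expo 2 1 4 4 = 1 / 2 := by
  unfold expo
  simp

theorem inScope : InScope 2 1 4 4 Crit.ran := by
  refine ⟨by norm_num, by norm_num, by norm_num, Or.inl ?_, ?_⟩
  · rw [ENNReal.div_lt_iff (by norm_num) (by norm_num)]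
    norm_num
  · show ¬ ((4 : ℝ≥0∞) = ∞ ∧ (4 : ℝ≥0∞) = ∞)
    norm_num

/-- Large values at the scales of the teeth. -/
theorem large {m : ℕ} (hm : 1 ≤ m) : ∃ᶠ n : ℕ in atTop,
    ENNReal.ofReal (Real.sqrt m / 12) ≤ normErr Crit.ran (Dom m) 1 4 4 n := by
  rw [frequently_atTop]
  intro N
  have hm' : (1 : ℝ) ≤ m := by exact_mod_cast hm
  set k := N with hk
  have hL := Lk_pos k
  set h : ℕ := m * (8 * 16 ^ (5 ^ k - 1)) with hh
  have h5 : 1 ≤ 5 ^ k := Nat.one_le_pow _ _ (by norm_num)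
  have h2h : 2 * h = m * 16 ^ 5 ^ k := by
    rw [hh]
    have : 16 ^ 5 ^ k = 16 * 16 ^ (5 ^ k - 1) := by
      rw [← pow_succ', Nat.sub_add_cancel h5]
    rw [this]
    ring
  have hh1 : 1 ≤ h := Nat.mul_pos hm (by positivity)
  have hinv : ((16 : ℝ) ^ 5 ^ k) = (Lk k ^ 2)⁻¹ := by
    unfold Lk
    rw [← pow_mul, mul_comm, pow_mul, one_div, inv_pow, inv_pow, inv_inv]
    norm_num
  have hn : ((2 * h : ℕ) : ℝ) = m / Lk k ^ 2 := by
    rw [h2h]
    push_cast
    rw [hinv, div_eq_mul_inv]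
  refine ⟨2 * h, ?_, ?_⟩
  · -- the numbers of points tend to infinity
    rw [h2h]
    calc k ≤ 5 ^ k := (Nat.lt_pow_self (by norm_num)).le
      _ ≤ 16 ^ 5 ^ k := (Nat.lt_pow_self (by norm_num)).le
      _ = 1 * 16 ^ 5 ^ k := (one_mul _).symm
      _ ≤ m * 16 ^ 5 ^ k := Nat.mul_le_mul_right _ hm
  · have key := tooth_lower (k := k) hm hh1 hn
    unfold normErr
    rw [expo_half, hn]
    have hroot : ((m : ℝ) / Lk k ^ 2) ^ (1 / 2 : ℝ) = Real.sqrt m / Lk k := by
      rw [← Real.sqrt_eq_rpow, Real.sqrt_div (by positivity), Real.sqrt_sq hL.le]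
    rw [hroot]
    calc ENNReal.ofReal (Real.sqrt m / 12)
        = ENNReal.ofReal (Lk k / 12) * ENNReal.ofReal (Real.sqrt m / Lk k) := by
          rw [← ENNReal.ofReal_mul (by positivity)]
          congr 1
          field_simp
      _ ≤ _ := mul_le_mul' key le_rfl

/-- Small values between the scales. -/
theorem small : ∃ C : ℝ≥0, ∀ m : ℕ, 1 ≤ m → ∃ᶠ n : ℕ in atTop,
    normErr Crit.ran (Dom m) 1 4 4 n ≤ C := by
  obtain ⟨C₀, hC₀, h⟩ := upper_teeth
  refine ⟨Real.toNNReal (C₀ ^ (1 / 4 : ℝ)), fun m hm => ?_⟩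
  obtain ⟨K₀, hK₀⟩ := eventually_atTop.1 (h m hm)
  rw [frequently_atTop]
  intro N
  set K := max N K₀ with hK
  refine ⟨256 ^ 5 ^ K, ?_, ?_⟩
  · calc N ≤ K := le_max_left _ _
      _ ≤ 5 ^ K := (Nat.lt_pow_self (by norm_num)).le
      _ ≤ 256 ^ 5 ^ K := (Nat.lt_pow_self (by norm_num)).le
  · have key := hK₀ K (le_max_right _ _)
    set n : ℕ := 256 ^ 5 ^ K with hn
    have hn0 : (0 : ℝ) < n := by
      have : 0 < n := by positivity
      exact_mod_cast this
    unfold normErr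
    rw [expo_half]
    refine (mul_le_mul' key le_rfl).trans (le_of_eq ?_)
    rw [ENNReal.ofReal_rpow_of_nonneg (by positivity) (by norm_num),
      ← ENNReal.ofReal_mul (by positivity)]
    show ENNReal.ofReal _ = ENNReal.ofReal _
    congr 1
    rw [Real.div_rpow hC₀.le (by positivity), ← Real.rpow_natCast, ← Real.rpow_mul hn0.le]
    norm_num
    rw [div_mul_cancel₀]
    positivity

theorem result : InScope 2 1 4 4 Crit.ran ∧ ∀ M : ℝ≥0, ∃ D : Set (Fin 2 → ℝ), Admissible D ∧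
    M * liminf (normErr Crit.ran D 1 4 4) atTop < limsup (normErr Crit.ran D 1 4 4) atTop := by
  refine ⟨inScope, fun M => ?_⟩
  obtain ⟨C, hC⟩ := small
  obtain ⟨m₀, hm₀⟩ := exists_nat_ge ((12 * ((M : ℝ) * C + 1)) ^ 2)
  set m := max m₀ 1 with hm
  have hm1 : 1 ≤ m := le_max_right _ _
  refine ⟨Dom m, dom_admissible hm1, ?_⟩
  have hlow : ENNReal.ofReal (Real.sqrt m / 12) ≤ limsup (normErr Crit.ran (Dom m) 1 4 4) atTop :=
    le_limsup_of_frequently_le (large hm1)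
  have hup : liminf (normErr Crit.ran (Dom m) 1 4 4) atTop ≤ C :=
    liminf_le_of_frequently_le (hC m hm1)
  refine lt_of_le_of_lt (mul_le_mul' le_rfl hup) (lt_of_lt_of_le ?_ hlow)
  have hmm : (12 * ((M : ℝ) * C + 1)) ^ 2 ≤ m := by
    refine hm₀.trans ?_
    exact_mod_cast le_max_left _ _
  have hs : 12 * ((M : ℝ) * C + 1) ≤ Real.sqrt m := by
    apply Real.le_sqrt_of_sq_le hmm
  rw [← ENNReal.coe_mul, ← ENNReal.ofReal_coe_nnreal]
  rw [ENNReal.ofReal_lt_ofReal_iff_of_nonneg (by positivity)]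
  push_cast
  linarith

end Pool.Agent.Results.MP_961271_an.NoLimit
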