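import Pool.Agent.Lib.MP_961271_an.Q2

/-!
The limits `c` of the normalised minimal errors depend on the shape of the domain.
-/

open MeasureTheory Set Filter Topology
open scoped ENNReal NNReal

namespace Pool.Agent.Results.MP_961271_an.ShapeDependence

open Pool.Agent.Lib.MP_961271_an

theorem expo_eq_zero : expo 2 2 1 ∞ = 0 := by
  unfold expo
  simp

theorem normErr_eq (D : Set (Fin 2 → ℝ)) (n : ℕ) :
    normErr Crit.ran D 2 1 ∞ n = minErr Crit.ran D 2 1 ∞ n := by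
  unfold normErr
  rw [expo_eq_zero]
  simp

theorem limit_exists {D : Set (Fin 2 → ℝ)} (hD : Admissible D) :
    Tendsto (normErr Crit.ran D 2 1 ∞) atTop (𝓝 (⨅ n, minErr Crit.ran D 2 1 ∞ n)) := by
  have h := tendsto_atTop_iInf (minErr_antitone hD Crit.ran 2 1 ∞)
  refine h.congr fun n => (normErr_eq D n).symm

theorem limit_ne_top {D : Set (Fin 2 → ℝ)} (hD : Admissible D) :
    (⨅ n, minErr Crit.ran D 2 1 ∞ n) ≠ ∞ := by
  obtain ⟨K, -, hK⟩ := embed_cone hD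
  have h := (iInf_le (fun n => minErr Crit.ran D 2 1 ∞ n) 0).trans (minErr_le_of_bound hD hK 0)
  exact (h.trans_lt ENNReal.ofReal_lt_top).ne

theorem par_convex (a b : Fin 2 → ℝ) : Convex ℝ (Par a b) := by
  rw [par_eq_preimage]
  exact (convex_pi fun i _ => convex_Ioo 0 1).linear_preimage (Matrix.toLin' (skewMat a b))

theorem result :
    ∃ (d s : ℕ) (p q : ℝ≥0∞) (crit : Crit), InScope d s p q crit ∧
      ∃ (D₁ : Set (Fin d → ℝ)) (c₁ : ℝ≥0∞), Admissible D₁ ∧ Convex ℝ D₁ ∧ volume D₁ = 1 ∧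
        c₁ ≠ ∞ ∧ Tendsto (normErr crit D₁ s p q) atTop (𝓝 c₁) ∧
        ∀ M : ℝ≥0, ∃ (D₂ : Set (Fin d → ℝ)) (c₂ : ℝ≥0∞), Admissible D₂ ∧ Convex ℝ D₂ ∧
          volume D₂ = volume D₁ ∧ c₂ ≠ ∞ ∧ Tendsto (normErr crit D₂ s p q) atTop (𝓝 c₂) ∧
          (M : ℝ≥0∞) < c₂ := by
  have hdet1 : (![1, 0] : Fin 2 → ℝ) 0 * (![0, 1] : Fin 2 → ℝ) 1
      - (![1, 0] : Fin 2 → ℝ) 1 * (![0, 1] : Fin 2 → ℝ) 0 = 1 := by simp
  have hne1 : (![1, 0] : Fin 2 → ℝ) 0 * (![0, 1] : Fin 2 → ℝ) 1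
      - (![1, 0] : Fin 2 → ℝ) 1 * (![0, 1] : Fin 2 → ℝ) 0 ≠ 0 := by
    rw [hdet1]; exact one_ne_zero
  have hvol1 : volume (Par ![1, 0] ![0, 1]) = 1 := by
    rw [volume_par hne1, hdet1]; simp
  refine ⟨2, 2, 1, ∞, Crit.ran, ?_, Par ![1, 0] ![0, 1], _, par_admissible hne1,
    par_convex _ _, hvol1, limit_ne_top (par_admissible hne1), limit_exists (par_admissible hne1),
    ?_⟩
  · refine ⟨by norm_num, le_rfl, le_top, Or.inr ⟨rfl, rfl⟩, ?_⟩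
    show ¬ ((1 : ℝ≥0∞) = ∞ ∧ (∞ : ℝ≥0∞) = ∞)
    simp
  · intro M
    obtain ⟨c, hc, hcL⟩ := sharp_lower
    obtain ⟨L, hL1, hL⟩ : ∃ L : ℝ, 1 ≤ L ∧ (M : ℝ) < c * L ^ 2 := by
      refine ⟨1 + (M + 1) / c, ?_, ?_⟩
      · have : 0 ≤ ((M : ℝ) + 1) / c := by positivity
        linarith
      · have h0 : 0 ≤ ((M : ℝ) + 1) / c := by positivity
        have h1 : ((M : ℝ) + 1) / c ≤ (1 + (M + 1) / c) ^ 2 := by nlinarith
        have h2 : c * (((M : ℝ) + 1) / c) = M + 1 := by field_simp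
        nlinarith [mul_le_mul_of_nonneg_left h1 hc.le]
    have hL0 : 0 < L := by linarith
    have hdet2 : (![L, 0] : Fin 2 → ℝ) 0 * (![L, L⁻¹] : Fin 2 → ℝ) 1
        - (![L, 0] : Fin 2 → ℝ) 1 * (![L, L⁻¹] : Fin 2 → ℝ) 0 = 1 := by
      simp [hL0.ne']
    have hne2 : (![L, 0] : Fin 2 → ℝ) 0 * (![L, L⁻¹] : Fin 2 → ℝ) 1
        - (![L, 0] : Fin 2 → ℝ) 1 * (![L, L⁻¹] : Fin 2 → ℝ) 0 ≠ 0 := by
      rw [hdet2]; exact one_ne_zero
    have hvol2 : volume (Par ![L, 0] ![L, L⁻¹]) = 1 := by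
      rw [volume_par hne2, hdet2]; simp
    refine ⟨Par ![L, 0] ![L, L⁻¹], _, par_admissible hne2, par_convex _ _, hvol2.trans hvol1.symm,
      limit_ne_top (par_admissible hne2), limit_exists (par_admissible hne2), ?_⟩
    have h3 : (M : ℝ≥0∞) < ENNReal.ofReal (c * L ^ 2) := by
      rw [← ENNReal.ofReal_coe_nnreal]
      exact (ENNReal.ofReal_lt_ofReal_iff (lt_of_le_of_lt M.2 hL)).2 hL
    exact h3.trans_le (le_iInf fun n => hcL L hL1 n)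

end Pool.Agent.Results.MP_961271_an.ShapeDependence
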