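import Pool.Agent.Lib.MP_961271_an.SH.Thin
import Pool.Agent.Lib.MP_961271_an.SH.Cor
import Pool.Agent.Lib.MP_961271_an.SH.SquareUp

/-!
Dependence of the asymptotic constants on the shape of the domain for the Monte Carlo error and
`p ≤ q`, in every dimension `d ≥ 2`.
-/

open MeasureTheory Set Filter Topology
open scoped ENNReal NNReal

namespace Pool.Agent.Results.MP_961271_an.ShapeDependencePositiveRate

open Pool.Agent.Lib.MP_961271_an

theorem result :
    -- all dimensions `d ≥ 2` and all parameters with `p ≤ q` in scope for the Monte Carlo error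
    (∀ (d s : ℕ) (p q : ℝ≥0∞), 2 ≤ d → InScope d s p q Crit.ran → p ≤ q →
      -- convex domains of volume one with arbitrarily large lower limit
      (∀ M : ℝ≥0, ∃ D : Set (Fin d → ℝ), Convex ℝ D ∧ Admissible D ∧ volume D = 1 ∧
        (M : ℝ≥0∞) ≤ liminf (normErr Crit.ran D s p q) atTop) ∧
      -- no finite constant is the limit for all convex domains of volume one
      (¬ ∃ c : ℝ≥0, ∀ D : Set (Fin d → ℝ), Convex ℝ D → Admissible D → volume D = 1 →
        Tendsto (normErr Crit.ran D s p q) atTop (𝓝 (c : ℝ≥0∞))) ∧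
      -- comparison with an arbitrary domain
      ∀ D₀ : Set (Fin d → ℝ), limsup (normErr Crit.ran D₀ s p q) atTop ≠ ∞ → ∀ M : ℝ≥0,
        ∃ D : Set (Fin d → ℝ), Convex ℝ D ∧ Admissible D ∧ volume D = 1 ∧
          M * limsup (normErr Crit.ran D₀ s p q) atTop <
            liminf (normErr Crit.ran D s p q) atTop) ∧
    -- the unit square, `d = 2`, `s = 1`, `p = q = 4`, rate exponent `1 / 2`
    InScope 2 1 4 4 Crit.ran ∧ expo 2 1 4 4 = 1 / 2 ∧
    ∃ D₁ : Set (Fin 2 → ℝ), D₁ = {x | ∀ i, 0 < x i ∧ x i < 1} ∧ Convex ℝ D₁ ∧ Admissible D₁ ∧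
      volume D₁ = 1 ∧ limsup (normErr Crit.ran D₁ 1 4 4) atTop < ∞ ∧
      ∀ M : ℝ≥0, ∃ D₂ : Set (Fin 2 → ℝ), Convex ℝ D₂ ∧ Admissible D₂ ∧ volume D₂ = volume D₁ ∧
        M * limsup (normErr Crit.ran D₁ 1 4 4) atTop <
          liminf (normErr Crit.ran D₂ 1 4 4) atTop := by
  have hin : InScope 2 1 4 4 Crit.ran := by
    refine ⟨by norm_num, by norm_num, by norm_num, Or.inl ?_, ?_⟩
    · rw [ENNReal.div_lt_iff (by norm_num) (by norm_num)]
      norm_num
    · show ¬ ((4 : ℝ≥0∞) = ∞ ∧ (4 : ℝ≥0∞) = ∞)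
      norm_num
  have hU : ∀ (d s : ℕ) (p q : ℝ≥0∞), 2 ≤ d → InScope d s p q Crit.ran → p ≤ q →
      SH.Unbounded d s p q := fun d s p q hd h hpq M => SH.lower_all hd h hpq M
  refine ⟨fun d s p q hd h hpq => ⟨hU d s p q hd h hpq, SH.no_common_limit (hU d s p q hd h hpq),
    fun D₀ h0 M => SH.ratio_unbounded (hU d s p q hd h hpq) D₀ h0 M⟩, hin, ?_, Sq 0 1, ?_,
    SH.unitSq_convex, SH.unitSq_admissible, SH.unitSq_volume, lt_top_iff_ne_top.2 SH.square_limsup,
    fun M => ?_⟩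
  · unfold expo
    simp
  · ext x
    simp [Sq]
  · rw [SH.unitSq_volume]
    exact SH.ratio_unbounded (hU 2 1 4 4 le_rfl hin le_rfl) (Sq 0 1) SH.square_limsup M

end Pool.Agent.Results.MP_961271_an.ShapeDependencePositiveRate
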